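import Pool.Agent.Y416.TA.BroomAmp

/-!
# Every complex number is an amplitude of a tree

The earlier result of this repository (`DoubleStarZero`) gives one tree on twelve vertices, with
two branching vertices, and a configuration of twelve distinct points whose amplitude is `0`.

Here it is shown that every complex number `w` (in particular `0`) is the amplitude of a tree at a
configuration of pairwise distinct points, and the tree can be taken with only one branching
vertex, of degree at most `65`: a path with `64` leaves attached to its last vertex.

The notions (`R3`, `IsConfiguration`, `IsSpinorChoice`, `IsOrientation`, `denominator`,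
`amplitude`) are those of `Pool.Agent.Results.MP_b525e0_co.DoubleStarZero`.
-/

open Pool.Agent.Y416.TA
open Pool.Agent.Results.MP_b525e0_co.DoubleStarZero (R3 IsConfiguration direction IsSpinorOf
  IsSpinorChoice IsOrientation denominator amplitude omega_ne_zero direction_symm)

namespace Pool.Agent.Results.MP_b525e0_co.AllValues

/-- the vertices other than the last vertex of the path have at most two neighbours -/
theorem nbhd (n m : ℕ) (v : BV n m) (hv : v ≠ Sum.inl (Fin.last (n + 1))) :
    ((bG n m).neighborSet v).ncard ≤ 2 := by
  rcases v with k | j
  · have hk : k.val < n + 1 := by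
      have h1 := k.isLt
      by_contra hcon
      apply hv
      congr 1
      apply Fin.ext
      simp only [Fin.val_last]
      omega
    have hsub : (bG n m).neighborSet (Sum.inl k) ⊆
        {Sum.inl ⟨k.val + 1, by omega⟩, Sum.inl ⟨k.val - 1, by omega⟩} := by
      rintro u ⟨⟨e, c⟩, h1, h2⟩
      rcases e with k' | j'
      · have h1' : psrc (k', c) = k := Sum.inl_injective h1
        have h2' : Sum.inl (psrc (k', !c)) = u := h2
        have h3 := congrArg Fin.val h1'
        rw [psrc_val] at h3
        rw [← h2']
        cases c
        · left
          congr 1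
          apply Fin.ext
          rw [psrc_val]
          simp at h3
          simp [h3]
        · right
          show Sum.inl _ = Sum.inl _
          congr 1
          apply Fin.ext
          rw [psrc_val]
          simp at h3
          simp
          omega
      · exfalso
        cases c
        · exact hv h1.symm
        · exact Sum.inr_ne_inl h1
    refine (Set.ncard_le_ncard hsub (Set.toFinite _)).trans ?_
    refine (Set.ncard_insert_le _ _).trans ?_
    rw [Set.ncard_singleton]
  · have hsub : (bG n m).neighborSet (Sum.inr j) ⊆ {Sum.inl (Fin.last (n + 1))} := by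
      rintro u ⟨⟨e, c⟩, h1, h2⟩
      rcases e with k' | j'
      · exact absurd h1 Sum.inl_ne_inr
      · cases c
        · exact absurd h1 Sum.inl_ne_inr
        · exact h2.symm
    refine (Set.ncard_le_ncard hsub (Set.toFinite _)).trans ?_
    rw [Set.ncard_singleton]
    norm_num

/-- the last vertex of the path has at most `m + 1` neighbours -/
theorem nbhd_last (n m : ℕ) :
    ((bG n m).neighborSet (Sum.inl (Fin.last (n + 1)))).ncard ≤ m + 1 := by
  have hsub : (bG n m).neighborSet (Sum.inl (Fin.last (n + 1))) ⊆
      insert (Sum.inl ⟨n, by omega⟩) (Set.range Sum.inr) := by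
    rintro u ⟨⟨e, c⟩, h1, h2⟩
    rcases e with k' | j'
    · left
      have h1' : psrc (k', c) = Fin.last (n + 1) := Sum.inl_injective h1
      have h2' : Sum.inl (psrc (k', !c)) = u := h2
      have h3 := psrc_last h1'
      have h4 : k' = Fin.last n := congrArg Prod.fst h3
      have h5 : c = true := congrArg Prod.snd h3
      rw [← h2', h4, h5]
      congr 1
    · cases c
      · right; exact ⟨j', h2⟩
      · exact absurd h1 Sum.inr_ne_inl
  refine (Set.ncard_le_ncard hsub (Set.toFinite _)).trans ?_
  refine (Set.ncard_insert_le _ _).trans ?_
  rw [Set.ncard_range_of_injective Sum.inr_injective]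
  simp

/-- **Every complex number is an amplitude.** For every complex number `w` there are a tree `G`
with only one vertex `c` of degree larger than two (all degrees being at most `65`) and a
configuration `x` of pairwise distinct points such that the amplitude of `G` at `x` is `w`: spinors
and orientations exist, and for every choice of them the denominator is nonzero and the amplitude
is `w`. For `w = 0` this answers Q1 negatively. -/
theorem result (w : ℂ) : ∃ (V : Type) (_ : Fintype V) (G : SimpleGraph V) (x : V → R3),
    G.IsTree ∧
    (∃ c : V, (G.neighborSet c).ncard ≤ 65 ∧ ∀ v : V, v ≠ c → (G.neighborSet v).ncard ≤ 2) ∧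
    Function.Injective x ∧ IsConfiguration G x ∧
    (∃ ψ : G.Dart → Fin 2 → ℂ, IsSpinorChoice G x ψ) ∧
    (∃ Δ : Finset G.Dart, IsOrientation G Δ) ∧
    ∀ (ψ : G.Dart → Fin 2 → ℂ) (Δ : Finset G.Dart), IsSpinorChoice G x ψ → IsOrientation G Δ →
      denominator G ψ Δ ≠ 0 ∧ amplitude G ψ Δ = w := by
  obtain ⟨D, n, hD, hval⟩ := all_bval w
  refine ⟨BV n 64, inferInstance, bG n 64, bX D n 64, bG_isTree n 64,
    ⟨Sum.inl (Fin.last (n + 1)), nbhd_last n 64, nbhd n 64⟩, bX_injective D hD n 64,
    fun i j h hc => h.ne (bX_injective D hD n 64 hc), ⟨_, a0_choice D hD n 64⟩, borient n 64, ?_⟩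
  intro ψ Δ hψ hΔ
  refine ⟨?_, ?_⟩
  · rw [denominator, Finset.prod_ne_zero_iff]
    intro d _
    refine omega_ne_zero (hψ d) ?_
    rw [← direction_symm]
    exact hψ d.symm
  · rw [bX_amplitude D hD n 64 ψ Δ hψ hΔ, hval]

end Pool.Agent.Results.MP_b525e0_co.AllValues
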