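import Pool.Agent.Y356.GA.Bridge3

/-!
# Zeros of the graph amplitude: the bridge criterion

Let `uv` be a bridge of a finite bipartite graph `G` (for example any edge of a tree), and let
`u`, `v` have the degrees `a + 1`, `b + 1`. If `16 (a + 1) (b + 1) ≤ a² b²` then some configuration
of distinct points has amplitude zero. For instance this holds whenever both degrees are at
least `6`, and for all trees with such an edge.

All vertices of the side of `u` are put on a line through `u`, the two classes of the bipartition
on different sides of `u`, and similarly for `v`. Then all directions at a vertex different from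
`u` and `v` are equal, and the amplitude is a nonzero multiple of
`(a + 1 + x²) (b + 1 + y²) - a b x y`, where `x`, `y` describe the directions of the two lines.
-/

set_option autoImplicit false

namespace Pool.Agent.Results.MP_b525e0_co.BridgeCriterion

open Pool.Agent.Results.MP_b525e0_co.DoubleStarZero

/-- (1) Bridges of bipartite graphs. (2) Edges of trees (and of forests). -/
theorem result :
    (∀ (V : Type) (_ : Fintype V) (G : SimpleGraph V) (u v : V) (a b : ℕ),
      G.Colorable 2 → G.Adj u v → G.IsBridge s(u, v) →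
      (G.neighborSet u).ncard = a + 1 → (G.neighborSet v).ncard = b + 1 →
      16 * ((a + 1) * (b + 1)) ≤ a ^ 2 * b ^ 2 →
      ∃ x : V → R3, Function.Injective x ∧ IsConfiguration G x ∧
        (∃ ψ : G.Dart → Fin 2 → ℂ, IsSpinorChoice G x ψ) ∧
        (∃ Δ : Finset G.Dart, IsOrientation G Δ) ∧
        ∀ (ψ : G.Dart → Fin 2 → ℂ) (Δ : Finset G.Dart), IsSpinorChoice G x ψ →
          IsOrientation G Δ → denominator G ψ Δ ≠ 0 ∧ amplitude G ψ Δ = 0) ∧
    (∀ (V : Type) (_ : Fintype V) (G : SimpleGraph V) (u v : V) (a b : ℕ),
      G.IsAcyclic → G.Adj u v →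
      (G.neighborSet u).ncard = a + 1 → (G.neighborSet v).ncard = b + 1 →
      16 * ((a + 1) * (b + 1)) ≤ a ^ 2 * b ^ 2 →
      ∃ x : V → R3, Function.Injective x ∧ IsConfiguration G x ∧
        (∃ ψ : G.Dart → Fin 2 → ℂ, IsSpinorChoice G x ψ) ∧
        (∃ Δ : Finset G.Dart, IsOrientation G Δ) ∧
        ∀ (ψ : G.Dart → Fin 2 → ℂ) (Δ : Finset G.Dart), IsSpinorChoice G x ψ →
          IsOrientation G Δ → denominator G ψ Δ ≠ 0 ∧ amplitude G ψ Δ = 0) := by
  refine ⟨?_, ?_⟩
  · intro V _ G u v a b hG huv hbr ha hb hab
    exact Pool.Agent.Y356.GA.bridge_criterion hG huv hbr a b ha hb hab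
  · intro V _ G u v a b hG huv ha hb hab
    exact Pool.Agent.Y356.GA.bridge_criterion hG.colorable_two huv
      (SimpleGraph.isAcyclic_iff_forall_isBridge.1 hG ((SimpleGraph.mem_edgeSet G).2 huv))
      a b ha hb hab

end Pool.Agent.Results.MP_b525e0_co.BridgeCriterion
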