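import Pool.Agent.Y356.GA.Dia

/-!
# The graph amplitude of the trees of diameter three

For the double star with `a` leaves at the first and `b` leaves at the second centre the amplitude
has a zero exactly when `16 (a + 1) (b + 1) ≤ a² b²`. Otherwise its real part is at least
`1 - a b / (4 √((a + 1) (b + 1)))`, which is positive.

Let `P` be the spinor of the central edge at the first centre. The symmetrised tensor of the
spinors of the first centre, contracted with the opposite spinors of its leaves, is a vector whose
two components in the basis of `P` and its antipode are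
`∑ (k + 1)! (a - k)! |q k|²` and `∑ (k + 1)! (a - k)! conj (q (k + 1)) (q k)`, where the `q k` are
the coefficients of `∏ (x i X + y i)` and `(x i, y i)` are the coordinates of the spinors of the
leaves. The first component is at least one by Marcus's inequality, and a weighted inequality
between the arithmetic and the geometric mean bounds the ratio of the second to the first
component by `a / (2 √(a + 1))`. The zeros in the other case come from the bridge criterion.
-/

set_option autoImplicit false

namespace Pool.Agent.Results.MP_b525e0_co.DiameterThree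

open Pool.Agent.Results.MP_b525e0_co.DoubleStarZero
open Pool.Agent.Y356.GA

/-- (1) Zeros at distinct points. (2) A positive lower bound for the real part. -/
theorem result (a b : ℕ) :
    (16 * ((a + 1) * (b + 1)) ≤ a ^ 2 * b ^ 2 →
      ∃ x : Option (Fin a) ⊕ Option (Fin b) → R3, Function.Injective x ∧
        IsConfiguration (doubleStarGraph a b) x ∧
        (∃ ψ : (doubleStarGraph a b).Dart → Fin 2 → ℂ,
          IsSpinorChoice (doubleStarGraph a b) x ψ) ∧
        (∃ Δ : Finset (doubleStarGraph a b).Dart, IsOrientation (doubleStarGraph a b) Δ) ∧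
        ∀ (ψ : (doubleStarGraph a b).Dart → Fin 2 → ℂ) (Δ : Finset (doubleStarGraph a b).Dart),
          IsSpinorChoice (doubleStarGraph a b) x ψ → IsOrientation (doubleStarGraph a b) Δ →
          denominator (doubleStarGraph a b) ψ Δ ≠ 0 ∧
            amplitude (doubleStarGraph a b) ψ Δ = 0) ∧
    (a ^ 2 * b ^ 2 < 16 * ((a + 1) * (b + 1)) →
      0 < 1 - (a : ℝ) * b / (4 * Real.sqrt (((a : ℝ) + 1) * ((b : ℝ) + 1))) ∧
      ∀ (x : Option (Fin a) ⊕ Option (Fin b) → R3)
        (ψ : (doubleStarGraph a b).Dart → Fin 2 → ℂ) (Δ : Finset (doubleStarGraph a b).Dart),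
        IsConfiguration (doubleStarGraph a b) x →
        IsSpinorChoice (doubleStarGraph a b) x ψ → IsOrientation (doubleStarGraph a b) Δ →
        denominator (doubleStarGraph a b) ψ Δ ≠ 0 ∧
          1 - (a : ℝ) * b / (4 * Real.sqrt (((a : ℝ) + 1) * ((b : ℝ) + 1))) ≤
            (amplitude (doubleStarGraph a b) ψ Δ).re) := by
  refine ⟨fun h => zero_dstar h, fun h => ⟨?_, ?_⟩⟩
  · have h1 := rho_lt h
    rw [rho] at h1
    linarith
  · intro x ψ Δ _ hψ hΔ
    have h1 := (amplitude_re h x ψ hψ Δ hΔ).2
    rw [rho] at h1
    exact h1

end Pool.Agent.Results.MP_b525e0_co.DiameterThree
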