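import Pool.Agent.Y478.AM.Tree

/-!
# MP_b525e0_co: every finite graph is an induced subgraph of a graph whose amplitude has a zero

`glue G H l h` is the graph obtained from the disjoint union of `G` and `H` by adding the edge from
the vertex `l` of `G` to the vertex `h` of `H`.

(A) If the amplitude of `G` vanishes at a configuration `x` of distinct points and `l` is a leaf
of `G`, then for every finite graph `H`, every vertex `h` of `H` and every configuration `y` of
distinct points for `H` the amplitude of `glue G H l h` vanishes at the configuration formed by `x`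
and a suitable translate of `y`, and all its points are distinct.

(B) Hence every finite graph `H` is an induced subgraph of a finite graph `K` with twelve more
vertices whose amplitude has a zero at distinct points; `K` is connected (a tree) if `H` is.

(C) There are trees with such zeros of every order `n ≥ 12`.
-/

set_option autoImplicit false

namespace Pool.Agent.Results.MP_b525e0_co.EveryInducedSubgraph

open Pool.Agent.Y478.AM Pool.Agent.Results.MP_b525e0_co.DoubleStarZero

/-- **Zeros of the graph amplitude are abundant.** (A) Zeros persist, in a suitable position, if an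
arbitrary finite graph is attached by one edge to a leaf. (B) Every finite graph `H` (with at least
one vertex) is an induced subgraph of a graph with exactly twelve more vertices whose amplitude
vanishes at some configuration of distinct points, and the latter graph is connected, respectively
a tree, if `H` is. (C) For every `n ≥ 12` there is a tree with `n` vertices whose amplitude vanishes
at some configuration of `n` distinct points. -/
theorem result :
    (∀ (V W : Type) (_ : Fintype V) (_ : Fintype W) (G : SimpleGraph V) (x : V → R3),
      Function.Injective x → VanishesAt G x → ∀ l v : V, (∀ b, G.Adj l b ↔ b = v) →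
      ∀ (H : SimpleGraph W) (h : W) (y : W → R3), Function.Injective y →
        ∃ c : R3, Function.Injective (Sum.elim x fun w => y w + c) ∧
          VanishesAt (glue G H l h) (Sum.elim x fun w => y w + c)) ∧
    (∀ (W : Type) (_ : Fintype W) (_ : Nonempty W) (H : SimpleGraph W),
      ∃ (V : Type) (_ : Fintype V) (K : SimpleGraph V) (x : V → R3),
        Fintype.card V = Fintype.card W + 12 ∧ Nonempty (H ↪g K) ∧
        (H.Connected → K.Connected) ∧ (H.IsTree → K.IsTree) ∧
        Function.Injective x ∧ VanishesAt K x) ∧
    (∀ n : ℕ, 12 ≤ n → ∃ (V : Type) (_ : Fintype V) (K : SimpleGraph V) (x : V → R3),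
      Fintype.card V = n ∧ K.IsTree ∧ Function.Injective x ∧ VanishesAt K x) := by
  have hA : ∀ (V W : Type) (_ : Fintype V) (_ : Fintype W) (G : SimpleGraph V) (x : V → R3),
      Function.Injective x → VanishesAt G x → ∀ l v : V, (∀ b, G.Adj l b ↔ b = v) →
      ∀ (H : SimpleGraph W) (h : W) (y : W → R3), Function.Injective y →
        ∃ c : R3, Function.Injective (Sum.elim x fun w => y w + c) ∧
          VanishesAt (glue G H l h) (Sum.elim x fun w => y w + c) := by
    intro V W _ _ G x hx hG l v hv H h y hy
    have hlv : l ≠ v := ((hv v).2 rfl).ne
    obtain ⟨c, hc1, hc2⟩ := exists_translation x hx l v hlv h y hy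
    refine ⟨c, hc1, vanishes_glue G x hG l v hv H h _ ?_ ?_ hc2⟩
    · intro a b hab hc
      exact hab.ne (hy (add_right_cancel hc))
    · intro hc
      have h1 : (Sum.inl l : V ⊕ W) = Sum.inr h := hc1 hc
      exact absurd h1 (by simp)
  have hB : ∀ (W : Type) (_ : Fintype W) (_ : Nonempty W) (H : SimpleGraph W),
      ∃ (V : Type) (_ : Fintype V) (K : SimpleGraph V) (x : V → R3),
        Fintype.card V = Fintype.card W + 12 ∧ Nonempty (H ↪g K) ∧
        (H.Connected → K.Connected) ∧ (H.IsTree → K.IsTree) ∧
        Function.Injective x ∧ VanishesAt K x := by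
    intro W _ _ H
    obtain ⟨h⟩ := ‹Nonempty W›
    -- some injective configuration
    let y : W → R3 := fun w => ((Fintype.equivFin W w : ℕ) : ℝ) • n0
    have hy : Function.Injective y := by
      intro a b hab
      have hn : n0 ≠ 0 := by
        intro h0
        have h1 := norm_n0
        rw [h0, norm_zero] at h1
        exact zero_ne_one h1
      have h1 := smul_left_injective ℝ hn hab
      have h2 : (Fintype.equivFin W a : ℕ) = (Fintype.equivFin W b : ℕ) := by exact_mod_cast h1
      exact (Fintype.equivFin W).injective (Fin.ext h2)
    obtain ⟨c, hc1, hc2⟩ := hA (Fin 12) W inferInstance inferInstance doubleStar pos pos_injective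
      vanishes_doubleStar 2 0 leaf_two H h y hy
    refine ⟨Fin 12 ⊕ W, inferInstance, glue doubleStar H 2 h, _, ?_, ⟨emR doubleStar H 2 h⟩, ?_, ?_,
      hc1, hc2⟩
    · rw [Fintype.card_sum, Fintype.card_fin, add_comm]
    · exact connected_glue doubleStar H 2 h isTree_doubleStar.isConnected
    · exact isTree_glue doubleStar H 2 h isTree_doubleStar
  refine ⟨hA, hB, ?_⟩
  intro n hn
  rcases Nat.eq_or_lt_of_le hn with rfl | hn'
  · exact ⟨Fin 12, inferInstance, doubleStar, pos, Fintype.card_fin 12, isTree_doubleStar,
      pos_injective, vanishes_doubleStar⟩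
  · obtain ⟨T, hT⟩ := exists_tree (n - 12) (by omega)
    have hne : Nonempty (Fin (n - 12)) := ⟨⟨0, by omega⟩⟩
    obtain ⟨V, _, K, x, h1, -, -, h4, h5, h6⟩ := hB (Fin (n - 12)) inferInstance hne T
    refine ⟨V, inferInstance, K, x, ?_, h4 hT, h5, h6⟩
    rw [h1, Fintype.card_fin]
    omega

end Pool.Agent.Results.MP_b525e0_co.EveryInducedSubgraph
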